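import Mathlib
import Pool.Agent.V11145.TruncJ

/-!
# MP_030fd4_nt : a mod `p^3` congruence for a truncated `3F2` with a `p`-adic parameter

For every prime `p ≥ 5` and every `a ∈ ℤ_p` whose least nonnegative residue modulo `p` is even,
`3F2(1/2, -a, a+1; 1, 1; 1)_{p-1} ≡ (-1)^((p+1)/2) Γ_p(-a/2)^2 Γ_p((a+1)/2)^2 (mod p^3)`.
Morita's function `Γ_p` is constructed, and it is the only continuous function with the given
values at the positive integers.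
-/

namespace Pool.Agent.Results.MP_030fd4_nt.TruncatedWhippleModCube

open Finset Pool.Agent.V11145.Trunc

/-- The rising factorial `(x)_k = x (x+1) ... (x+k-1)` in `ℚ_p`. -/
noncomputable def poch {p : ℕ} [Fact p.Prime] (x : ℚ_[p]) (k : ℕ) : ℚ_[p] :=
  ∏ i ∈ range k, (x + i)

/-- The truncated sum `∑_{k=0}^{p-1} (1/2)_k (-a)_k (a+1)_k / (k!)^3`, as an element of `ℚ_p`. -/
noncomputable def truncSum (p : ℕ) [Fact p.Prime] (a : ℤ_[p]) : ℚ_[p] :=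
  ∑ k ∈ range p,
    poch (1/2 : ℚ_[p]) k * poch (-(a : ℚ_[p])) k * poch ((a : ℚ_[p]) + 1) k /
      ((k.factorial : ℚ_[p]))^3

/-- `G` is Morita's `p`-adic Gamma function: it is continuous on `ℤ_p`, and
`G n = (-1)^n ∏_{1 ≤ j < n, p ∤ j} j` for all integers `n ≥ 1`. -/
def IsMoritaGamma (p : ℕ) [Fact p.Prime] (G : ℤ_[p] → ℤ_[p]) : Prop :=
  Continuous G ∧ ∀ n : ℕ, 1 ≤ n →
    G (n : ℤ_[p]) = (-1)^n * ∏ j ∈ (Ico 1 n).filter (fun j => ¬ p ∣ j), (j : ℤ_[p])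

/-- The congruence of Q1 for all primes `p ≥ 5` and all `a ∈ ℤ_p` with `⟨a⟩_p = r` even;
here `x = -a/2` and `y = (a+1)/2`. -/
theorem result (p : ℕ) [Fact p.Prime] (hp : 5 ≤ p) :
    ∃ G : ℤ_[p] → ℤ_[p], IsMoritaGamma p G ∧ (∀ G' : ℤ_[p] → ℤ_[p], IsMoritaGamma p G' → G' = G) ∧
      ∀ (a : ℤ_[p]) (r : ℕ), r < p → Even r → (p : ℤ_[p]) ∣ a - r →
        ∀ x y : ℤ_[p], 2 * x = -a → 2 * y = a + 1 →
          ∃ z : ℤ_[p], truncSum p a - (-1)^((p+1)/2) * (G x : ℚ_[p])^2 * (G y : ℚ_[p])^2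
            = (p : ℚ_[p])^3 * (z : ℚ_[p]) := by
  have hp3 : 3 ≤ p := by omega
  have hval : ∀ n : ℕ, gam hp3 (n : ℤ_[p]) =
      (-1)^n * ∏ j ∈ (Ico 1 n).filter (fun j => ¬ p ∣ j), (j : ℤ_[p]) := by
    intro n
    rw [gam_nat hp3 n]
    unfold g
    push_cast
    rfl
  refine ⟨gam hp3, ⟨gam_cont hp3, fun n _ => hval n⟩, ?_, ?_⟩
  · intro G' hG'
    apply unique_of_nat G' (gam hp3) hG'.1 (gam_cont hp3)
    intro n hn
    rw [hG'.2 n hn, hval n]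
  · intro a r hr hre hdv x y hx hy
    obtain ⟨z, hz⟩ := main hp hp3 a x y r hr hre hdv hx hy
    refine ⟨z, ?_⟩
    have h1 := S_coe (p := p) hp3 a
    have h2 : truncSum p a = S (1/2 : ℚ_[p]) (wK ℚ_[p]) p (a : ℚ_[p]) := by
      unfold truncSum S tm wK poch rise
      apply Finset.sum_congr rfl
      intro k _
      ring
    rw [h2, ← h1]
    have h3 := congrArg (fun w : ℤ_[p] => (w : ℚ_[p])) hz
    push_cast at h3
    exact h3

end Pool.Agent.Results.MP_030fd4_nt.TruncatedWhippleModCube
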